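import Mathlib
import Pool.Agent.Q266.SSB
import Pool.Agent.Q266.SSD

set_option autoImplicit false

/-! # The class of spaces with property (**) is neither productive nor closed hereditary -/

namespace Pool.Agent.Results.MP_d80aff_gt.NeitherProductiveNorHereditary

open Pool.Agent.Q266.SS

/-- The class `𝒮`: Tychonoff spaces that satisfy (**). -/
def InS (X : Type) [TopologicalSpace X] : Prop := T35Space X ∧ StarStar X

/-- A class of spaces `C` is productive. -/
def Productive (C : (X : Type) → [TopologicalSpace X] → Prop) : Prop :=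
  ∀ (I : Type) (X : I → Type) [∀ i, TopologicalSpace (X i)], (∀ i, C (X i)) → C (∀ i, X i)

/-- A class of spaces `C` is closed hereditary. -/
def ClosedHereditary (C : (X : Type) → [TopologicalSpace X] → Prop) : Prop :=
  ∀ (X : Type) [TopologicalSpace X], C X → ∀ A : Set X, IsClosed A → C A

/-- **Main theorem.** The class of Tychonoff spaces that satisfy (**) is not productive: the real
line satisfies (**), and some power of the real line does not. It is not closed hereditary either:
some Tychonoff space with (**) has a closed subspace that fails (**). -/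
theorem result :
    (¬ Productive InS ∧ InS ℝ ∧ ∃ I : Type, ¬ StarStar (I → ℝ)) ∧
    (¬ ClosedHereditary InS ∧
      ∃ (Y : Type) (_ : TopologicalSpace Y) (_ : T35Space Y), StarStar Y ∧
        ∃ A : Set Y, IsClosed A ∧ ¬ StarStar A) := by
  have hreal : InS ℝ := ⟨inferInstance, starStar_of_locallyCompact⟩
  obtain ⟨I, hI⟩ := power_fails
  obtain ⟨Y, tY, hY, hSY, A, hA, hSA⟩ := closed_fails (P := I → ℝ) hI
  refine ⟨⟨fun h => ?_, hreal, I, hI⟩, fun h => ?_, Y, tY, hY, hSY, A, hA, hSA⟩
  · exact hI (h I (fun _ => ℝ) (fun _ => hreal)).2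
  · exact hSA (h Y ⟨hY, hSY⟩ A hA).2

end Pool.Agent.Results.MP_d80aff_gt.NeitherProductiveNorHereditary
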